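import Mathlib

/-!
A maximal correlation estimate for random diagonals of the box, and its use for diagonals with
`n - 1` prescribed symbols in Latin hypercubes of large dimension.
-/

set_option autoImplicit false

namespace Pool.Agent.Lib.MP_356f68_co.Near

open Finset Equiv Function
open scoped BigOperators

variable {X : Type} [Fintype X] [DecidableEq X]

theorem expect_mulRight {G : Type} [Fintype G] [Group G] (u : G) (F : G → ℝ) :
    𝔼 π, F (π * u) = 𝔼 π, F π :=
  Fintype.expect_equiv (Equiv.mulRight u) _ _ fun _ => rfl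

theorem expect_perm_apply (i : X) (φ : X → ℝ) : 𝔼 π : Perm X, φ (π i) = 𝔼 x, φ x := by
  have : Nonempty X := ⟨i⟩
  have h1 : ∀ j : X, 𝔼 π : Perm X, φ (π j) = 𝔼 π : Perm X, φ (π i) := by
    intro j
    rw [← expect_mulRight (swap i j) (fun π : Perm X => φ (π i))]
    simp
  calc 𝔼 π : Perm X, φ (π i) = 𝔼 j : X, 𝔼 π : Perm X, φ (π j) := by
        simp only [h1]
        exact (Fintype.expect_const _).symm
    _ = 𝔼 π : Perm X, 𝔼 j : X, φ (π j) := expect_comm _ _ _
    _ = 𝔼 _π : Perm X, 𝔼 x : X, φ x :=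
        expect_congr rfl fun π _ => Fintype.expect_equiv π _ _ fun _ => rfl
    _ = 𝔼 x, φ x := Fintype.expect_const _

theorem neg_corr {g : X → ℝ} (hg : ∑ a, g a = 0) {i j : X} (hij : i ≠ j) :
    𝔼 π : Perm X, g (π i) * g (π j) ≤ 0 := by
  have h1 : ∀ k ∈ univ.erase i,
      𝔼 π : Perm X, g (π i) * g (π k) = 𝔼 π : Perm X, g (π i) * g (π j) := by
    intro k hk
    have hk' : i ≠ k := (ne_of_mem_erase hk).symm
    rw [← expect_mulRight (swap j k) (fun π : Perm X => g (π i) * g (π j))]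
    simp [swap_apply_of_ne_of_ne hij hk']
  have h2 : ∑ k, 𝔼 π : Perm X, g (π i) * g (π k) = 0 := by
    rw [← expect_sum_comm]
    refine expect_eq_zero fun π _ => ?_
    rw [← mul_sum, Equiv.sum_comp π g, hg, mul_zero]
  rw [← add_sum_erase _ _ (mem_univ i), sum_congr rfl h1, sum_const, nsmul_eq_mul] at h2
  have h3 : 0 ≤ 𝔼 π : Perm X, g (π i) * g (π i) := expect_nonneg fun π _ => mul_self_nonneg _
  have h4 : (0 : ℝ) < (univ.erase i).card := by
    exact_mod_cast card_pos.2 ⟨j, mem_erase.2 ⟨hij.symm, mem_univ _⟩⟩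
  by_contra h
  push Not at h
  nlinarith [mul_pos h4 h]

theorem one_dim {g : X → ℝ} (hg : ∑ a, g a = 0) {i j : X} (hij : i ≠ j) :
    𝔼 π : Perm X, ((g (π i) + g (π j)) / 2) ^ 2 ≤ 1 / 2 * 𝔼 x, g x ^ 2 := by
  have e : ∀ π : Perm X, ((g (π i) + g (π j)) / 2) ^ 2
      = 1 / 4 * g (π i) ^ 2 + 1 / 4 * g (π j) ^ 2 + 1 / 2 * (g (π i) * g (π j)) := by
    intro π
    ring
  simp only [e, expect_add_distrib, ← mul_expect]
  rw [expect_perm_apply i (fun x => g x ^ 2), expect_perm_apply j (fun x => g x ^ 2)]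
  linarith [neg_corr hg hij]

theorem expect_cons {α : Type} [Fintype α] {d : ℕ} (F : (Fin (d + 1) → α) → ℝ) :
    𝔼 x, F x = 𝔼 a : α, 𝔼 x : Fin d → α, F (Fin.cons a x) := by
  rw [← expect_product', univ_product_univ]
  exact (Fintype.expect_equiv (Fin.consEquiv fun _ => α) _ _ fun _ => rfl).symm

theorem expect_sq_le {ι : Type} [Fintype ι] {c a b : ι → ℝ} (ha : ∀ i, 0 ≤ a i)
    (hb : ∀ i, 0 ≤ b i) (h : ∀ i, c i ^ 2 ≤ a i * b i) :
    (𝔼 i, c i) ^ 2 ≤ (𝔼 i, a i) * 𝔼 i, b i := by
  have h1 : ∀ i, |c i| ≤ √(a i) * √(b i) := by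
    intro i
    rw [← Real.sqrt_mul (ha i)]
    exact Real.abs_le_sqrt (h i)
  have h2 := expect_mul_sq_le_sq_mul_sq univ (fun i => √(a i)) (fun i => √(b i))
  simp only [Real.sq_sqrt (ha _), Real.sq_sqrt (hb _)] at h2
  refine le_trans ?_ h2
  refine sq_le_sq' ?_ (expect_le_expect fun i _ => (le_abs_self _).trans (h1 i))
  rw [← expect_neg_distrib]
  exact expect_le_expect fun i _ => by linarith [neg_abs_le (c i), h1 i]

/-- The maximal correlation estimate. -/
theorem tensor {i j : X} (hij : i ≠ j) : ∀ (d : ℕ) (g : (Fin d → X) → ℝ),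
    (∀ x k, ∑ a, g (update x k a) = 0) → ∀ h : (Fin d → Perm X) → ℝ,
    (∀ ω k, h (update ω k (ω k * swap i j)) = h ω) →
    (𝔼 ω : Fin d → Perm X, g (fun k => ω k i) * h ω) ^ 2
      ≤ (1 / 2) ^ d * (𝔼 x, g x ^ 2) * 𝔼 ω, h ω ^ 2 := by
  intro d
  induction d with
  | zero =>
    intro g _ h _
    simp only [univ_unique, expect_singleton, pow_zero, one_mul, mul_pow]
    exact le_of_eq (by congr 3; exact Subsingleton.elim _ _)
  | succ d ih =>
    intro g hg h hh
    have ecell : ∀ (π : Perm X) (ω : Fin d → Perm X),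
        (fun k => (Fin.cons π ω : Fin (d + 1) → Perm X) k i)
          = (Fin.cons (π i) (fun k => ω k i) : Fin (d + 1) → X) := by
      intro π ω
      funext k
      refine Fin.cases ?_ (fun k => ?_) k <;> simp
    have hh0 : ∀ (π : Perm X) (ω : Fin d → Perm X),
        h (Fin.cons (π * swap i j) ω) = h (Fin.cons π ω) := by
      intro π ω
      have := hh (Fin.cons π ω) 0
      rwa [Fin.cons_zero, Fin.update_cons_zero] at this
    set gt : Perm X → (Fin d → X) → ℝ :=
      fun π x => (g (Fin.cons (π i) x) + g (Fin.cons (π j) x)) / 2 with hgt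
    have e1 : 𝔼 ω : Fin (d + 1) → Perm X, g (fun k => ω k i) * h ω
        = 𝔼 π : Perm X, 𝔼 ω : Fin d → Perm X, gt π (fun k => ω k i) * h (Fin.cons π ω) := by
      rw [expect_cons]
      simp only [ecell]
      have e2 := expect_mulRight (swap i j) (fun π : Perm X => 𝔼 ω : Fin d → Perm X,
        g (Fin.cons (π i) (fun k => ω k i)) * h (Fin.cons π ω))
      simp only [Perm.mul_apply, swap_apply_left, hh0] at e2
      have e3 : ∀ (π : Perm X) (ω : Fin d → Perm X), gt π (fun k => ω k i) * h (Fin.cons π ω)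
          = 1 / 2 * (g (Fin.cons (π i) (fun k => ω k i)) * h (Fin.cons π ω))
            + 1 / 2 * (g (Fin.cons (π j) (fun k => ω k i)) * h (Fin.cons π ω)) := by
        intro π ω
        simp only [hgt]
        ring
      simp only [e3, expect_add_distrib, ← mul_expect]
      rw [e2]
      ring
    have hstep : ∀ π : Perm X,
        (𝔼 ω : Fin d → Perm X, gt π (fun k => ω k i) * h (Fin.cons π ω)) ^ 2
          ≤ ((1 / 2) ^ d * 𝔼 x, gt π x ^ 2) * 𝔼 ω : Fin d → Perm X, h (Fin.cons π ω) ^ 2 := by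
      intro π
      refine ih (gt π) (fun x k => ?_) (fun ω => h (Fin.cons π ω)) fun ω k => ?_
      · have a1 := hg (Fin.cons (π i) x) k.succ
        have a2 := hg (Fin.cons (π j) x) k.succ
        simp only [← Fin.cons_update] at a1 a2
        simp only [hgt, ← sum_div, sum_add_distrib, a1, a2]
        simp
      · have := hh (Fin.cons π ω) k.succ
        rwa [← Fin.cons_update, Fin.cons_succ] at this
    have h3 := expect_sq_le (fun π => by positivity) (fun π => by positivity) hstep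
    rw [e1]
    refine h3.trans ?_
    rw [← expect_cons (fun ω => h ω ^ 2), ← mul_expect]
    have h4 : 𝔼 π : Perm X, 𝔼 x, gt π x ^ 2 ≤ 1 / 2 * 𝔼 x, g x ^ 2 := by
      have e4 : 𝔼 x, g x ^ 2 = 𝔼 x : Fin d → X, 𝔼 a : X, g (Fin.cons a x) ^ 2 := by
        rw [expect_cons (fun x => g x ^ 2), expect_comm]
      rw [expect_comm, e4, mul_expect]
      refine expect_le_expect fun x _ => ?_
      refine one_dim (g := fun a => g (Fin.cons a x)) ?_ hij
      have := hg (Fin.cons i x) 0
      simpa only [Fin.update_cons_zero] using this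
    have h5 : 0 ≤ 𝔼 ω, h ω ^ 2 := by positivity
    have h6 : (0 : ℝ) ≤ (1 / 2) ^ d := by positivity
    calc ((1 / 2) ^ d * 𝔼 π : Perm X, 𝔼 x, gt π x ^ 2) * 𝔼 ω, h ω ^ 2
        ≤ ((1 / 2) ^ d * (1 / 2 * 𝔼 x, g x ^ 2)) * 𝔼 ω, h ω ^ 2 := by gcongr
      _ = _ := by ring

theorem expect_update {d : ℕ} (k : Fin d) (σ : Perm X) (F : (Fin d → Perm X) → ℝ) :
    𝔼 ω, F (update ω k (ω k * σ)) = 𝔼 ω, F ω := by
  rw [← expect_mulRight (Pi.mulSingle k σ) F]
  refine expect_congr rfl fun ω _ => ?_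
  congr 1
  funext l
  by_cases h : l = k
  · subst h
    simp
  · simp [h]

omit [DecidableEq X] in
theorem expect_eq_zero_of_pure [Nonempty X] {d : ℕ} {g : (Fin (d + 1) → X) → ℝ}
    (hg : ∀ x k, ∑ a, g (update x k a) = 0) : 𝔼 x, g x = 0 := by
  rw [expect_cons, expect_comm]
  refine expect_eq_zero fun x _ => ?_
  have := hg (Fin.cons (Classical.arbitrary X) x) 0
  simp only [Fin.update_cons_zero] at this
  rw [Fintype.expect_eq_sum_div_card, this, zero_div]

section Latin

variable {d : ℕ} (L : (Fin (d + 1) → X) → X) (s : X → X)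

/-- The indicator that the rows in `S` of the diagonal carry the prescribed symbols. -/
def good (S : Finset X) (ω : Fin (d + 1) → Perm X) : ℝ :=
  if ∀ i ∈ S, L (fun k => ω k i) = s i then 1 else 0

/-- Its average over the rearrangements of the rows in `S` in the first coordinate. -/
noncomputable def symm (S : Finset X) (ω : Fin (d + 1) → Perm X) : ℝ :=
  𝔼 τ : Perm {x // x ∈ S}, good L s S (update ω 0 (ω 0 * Perm.ofSubtype τ))

theorem good_nonneg (S : Finset X) (ω : Fin (d + 1) → Perm X) : 0 ≤ good L s S ω := by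
  unfold good
  split_ifs <;> norm_num

theorem good_congr (S : Finset X) {ω ω' : Fin (d + 1) → Perm X}
    (h : ∀ k, ∀ i ∈ S, ω k i = ω' k i) : good L s S ω = good L s S ω' := by
  unfold good
  refine if_congr (forall₂_congr fun i hi => ?_) rfl rfl
  rw [show (fun k => ω k i) = fun k => ω' k i from funext fun k => h k i hi]

omit [Fintype X] in
theorem ofSubtype_mem {S : Finset X} (τ : Perm {x // x ∈ S}) {i : X} (hi : i ∈ S) :
    Perm.ofSubtype τ i ∈ S := by
  rw [Perm.ofSubtype_apply_of_mem τ hi]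
  exact (τ ⟨i, hi⟩).2

theorem symm_swap {S : Finset X} {i j : X} (hi : i ∉ S) (hj : j ∉ S) (ω : Fin (d + 1) → Perm X)
    (k : Fin (d + 1)) : symm L s S (update ω k (ω k * swap i j)) = symm L s S ω := by
  have hs : ∀ a ∈ S, swap i j a = a := fun a ha =>
    swap_apply_of_ne_of_ne (fun h => hi (h ▸ ha)) (fun h => hj (h ▸ ha))
  have hu : ∀ l, ∀ a ∈ S, update ω k (ω k * swap i j) l a = ω l a := by
    intro l a ha
    by_cases h : l = k
    · subst h
      simp [hs a ha]
    · simp [h]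
  unfold symm
  refine expect_congr rfl fun τ _ => good_congr L s S fun l a ha => ?_
  by_cases h : l = 0
  · subst h
    simp only [update_self, Perm.mul_apply]
    exact hu 0 _ (ofSubtype_mem τ ha)
  · simp only [update_of_ne h]
    exact hu l a ha

theorem symm_nonneg (S : Finset X) (ω : Fin (d + 1) → Perm X) : 0 ≤ symm L s S ω :=
  expect_nonneg fun _ _ => good_nonneg L s S _

theorem symm_le (hL : ∀ x k, Injective fun a => L (update x k a)) (S : Finset X)
    (ω : Fin (d + 1) → Perm X) : symm L s S ω ≤ 1 / (S.card.factorial : ℝ) := by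
  unfold symm good
  rw [Fintype.expect_eq_sum_div_card, Fintype.card_perm, Fintype.card_coe, sum_boole]
  gcongr
  refine Nat.cast_le_one.2 (card_le_one.2 fun τ hτ τ' hτ' => ?_)
  rw [mem_filter] at hτ hτ'
  ext ⟨a, ha⟩
  have e : ∀ σ : Perm X, (fun k => update ω 0 (ω 0 * σ) k a)
      = update (fun k => ω k a) 0 (ω 0 (σ a)) := by
    intro σ
    funext l
    by_cases h : l = 0
    · subst h
      simp
    · simp [h]
  have h1 := hτ.2 a ha
  have h2 := hτ'.2 a ha
  rw [e] at h1 h2
  have h3 := (ω 0).injective (hL _ _ (h1.trans h2.symm))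
  rwa [Perm.ofSubtype_apply_of_mem τ ha, Perm.ofSubtype_apply_of_mem τ' ha] at h3

theorem expect_mul_symm {S : Finset X} {i : X} (hi : i ∉ S) (f : (Fin (d + 1) → X) → ℝ) :
    𝔼 ω : Fin (d + 1) → Perm X, f (fun k => ω k i) * symm L s S ω
      = 𝔼 ω : Fin (d + 1) → Perm X, f (fun k => ω k i) * good L s S ω := by
  unfold symm
  simp only [mul_expect]
  rw [expect_comm]
  refine (expect_congr rfl fun τ _ => ?_).trans (Fintype.expect_const _)
  rw [← expect_update 0 (Perm.ofSubtype τ) (fun ω => f (fun k => ω k i) * good L s S ω)]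
  refine expect_congr rfl fun ω _ => ?_
  congr 2
  funext l
  by_cases h : l = 0
  · subst h
    simp [Perm.ofSubtype_apply_of_not_mem τ hi]
  · simp [h]

theorem expect_symm_sq (hL : ∀ x k, Injective fun a => L (update x k a)) {S : Finset X} {i : X}
    (hi : i ∉ S) : 𝔼 ω, symm L s S ω ^ 2 ≤ 1 / (S.card.factorial : ℝ) * 𝔼 ω, good L s S ω := by
  have e := expect_mul_symm L s hi (fun _ => 1)
  simp only [one_mul] at e
  rw [← e, mul_expect]
  refine expect_le_expect fun ω _ => ?_
  rw [sq]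
  exact mul_le_mul_of_nonneg_right (symm_le L s hL S ω) (symm_nonneg L s S ω)

theorem step (hL : ∀ x k, Bijective fun a => L (update x k a)) {S : Finset X} {i j : X}
    (hij : i ≠ j) (hi : i ∉ S) (hj : j ∉ S) :
    ((𝔼 ω, good L s (insert i S) ω) - (𝔼 ω, good L s S ω) / Fintype.card X) ^ 2
      ≤ (1 / 2) ^ (d + 1) * (1 / Fintype.card X) * (1 / (S.card.factorial : ℝ))
        * 𝔼 ω, good L s S ω := by
  have : Nonempty X := ⟨i⟩
  have hn : (0 : ℝ) < Fintype.card X := by exact_mod_cast Fintype.card_pos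
  set f : (Fin (d + 1) → X) → ℝ :=
    fun x => (if L x = s i then 1 else 0) - 1 / (Fintype.card X : ℝ) with hf
  have hpure : ∀ x k, ∑ a, f (update x k a) = 0 := by
    intro x k
    have e1 : ∑ a, (if L (update x k a) = s i then (1 : ℝ) else 0)
        = ∑ b, (if b = s i then (1 : ℝ) else 0) :=
      (hL x k).sum_comp (fun b => if b = s i then (1 : ℝ) else 0)
    simp only [hf, sum_sub_distrib, e1, sum_ite_eq', mem_univ, if_true, sum_const, card_univ,
      nsmul_eq_mul]
    field_simp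
    ring
  have hsq : 𝔼 x, f x ^ 2 ≤ 1 / Fintype.card X := by
    have e2 : ∀ x, f x ^ 2 = (1 - 2 / (Fintype.card X : ℝ)) * f x
        + (1 / Fintype.card X - (1 / Fintype.card X) ^ 2) := by
      intro x
      simp only [hf]
      split_ifs <;> ring
    simp only [e2, expect_add_distrib, ← mul_expect, expect_eq_zero_of_pure hpure,
      Fintype.expect_const]
    nlinarith [sq_nonneg (1 / (Fintype.card X : ℝ))]
  have e3 : (𝔼 ω, good L s (insert i S) ω) - (𝔼 ω, good L s S ω) / Fintype.card X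
      = 𝔼 ω : Fin (d + 1) → Perm X, f (fun k => ω k i) * good L s S ω := by
    rw [expect_div, ← expect_sub_distrib]
    refine expect_congr rfl fun ω _ => ?_
    simp only [hf, good, forall_mem_insert]
    by_cases h2 : ∀ a ∈ S, L (fun k => ω k a) = s a
    · by_cases h1 : L (fun k => ω k i) = s i
      · rw [if_pos ⟨h1, h2⟩, if_pos h2, if_pos h1]
        ring
      · rw [if_neg fun h => h1 h.1, if_pos h2, if_neg h1]
        ring
    · rw [if_neg fun h => h2 h.2, if_neg h2]
      ring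
  rw [e3, ← expect_mul_symm L s hi]
  refine (tensor hij (d + 1) f hpure _ (symm_swap L s hi hj)).trans ?_
  have h4 := expect_symm_sq L s (fun x k => (hL x k).1) hi
  have h5 : 0 ≤ 𝔼 ω, symm L s S ω ^ 2 := by positivity
  calc (1 / 2) ^ (d + 1) * (𝔼 x, f x ^ 2) * 𝔼 ω, symm L s S ω ^ 2
      ≤ (1 / 2) ^ (d + 1) * (1 / Fintype.card X)
        * (1 / (S.card.factorial : ℝ) * 𝔼 ω, good L s S ω) := by gcongr
    _ = _ := by ring

theorem lower (hL : ∀ x k, Bijective fun a => L (update x k a)) (j : X) (ε : ℕ → ℝ)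
    (hε0 : ∀ t, 0 ≤ ε t)
    (hε : ∀ t, (Fintype.card X : ℝ) ^ (t + 1) / (t.factorial * 2 ^ (d + 1)) ≤ ε t ^ 2)
    (S : Finset X) (hj : j ∉ S) (hS : ∑ t ∈ range S.card, ε t ≤ 1) :
    (1 - ∑ t ∈ range S.card, ε t) ^ 2 ≤ (𝔼 ω, good L s S ω) * (Fintype.card X : ℝ) ^ S.card := by
  have : Nonempty X := ⟨j⟩
  have hn : (0 : ℝ) < Fintype.card X := by exact_mod_cast Fintype.card_pos
  induction S using Finset.induction_on with
  | empty => simp [good]
  | insert i S hi ih =>
    rw [mem_insert, not_or] at hj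
    rw [card_insert_of_notMem hi, sum_range_succ] at hS ⊢
    have h1 := ih hj.2 (by linarith [hε0 S.card])
    have h2 := step L s hL (Ne.symm hj.1) hi hj.2
    set n : ℝ := (Fintype.card X : ℝ)
    set p := 𝔼 ω, good L s S ω
    set p' := 𝔼 ω, good L s (insert i S) ω
    set m := S.card
    set c := 1 - ∑ t ∈ range m, ε t with hc
    have hp : 0 ≤ p := expect_nonneg fun ω _ => good_nonneg L s S ω
    have hq : 0 ≤ p * n ^ m := by positivity
    set u := √(p * n ^ m) with hu
    have hu2 : u ^ 2 = p * n ^ m := Real.sq_sqrt hq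
    have hcu : c ≤ u := Real.le_sqrt_of_sq_le h1
    have hεc : ε m ≤ c := by linarith
    have hf : (0 : ℝ) < m.factorial := by exact_mod_cast m.factorial_pos
    have h3 : (p' * n ^ (m + 1) - u ^ 2) ^ 2 ≤ (ε m * u) ^ 2 := by
      calc (p' * n ^ (m + 1) - u ^ 2) ^ 2 = (p' - p / n) ^ 2 * (n ^ (m + 1)) ^ 2 := by
            rw [hu2]
            field_simp
            ring
        _ ≤ (1 / 2) ^ (d + 1) * (1 / n) * (1 / (m.factorial : ℝ)) * p * (n ^ (m + 1)) ^ 2 := by
            gcongr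
        _ = n ^ (m + 1) / (m.factorial * 2 ^ (d + 1)) * u ^ 2 := by
            rw [hu2, one_div_pow]
            field_simp
            ring
        _ ≤ ε m ^ 2 * u ^ 2 := by
            gcongr
            exact hε m
        _ = _ := by ring
    have h4 := (abs_le_of_sq_le_sq' h3 (mul_nonneg (hε0 m) (Real.sqrt_nonneg _))).1
    have e : 1 - (∑ t ∈ range m, ε t + ε m) = c - ε m := by ring
    rw [e]
    nlinarith [hε0 m, mul_le_mul hcu (sub_le_sub_right hcu (ε m)) (sub_nonneg.2 hεc)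
      (Real.sqrt_nonneg _)]

end Latin

theorem numeric_big (n : ℕ) (hn : 14 ≤ n) : (n : ℝ) ^ 2 * Real.exp n < 4 ^ n := by
  have h1 : ∀ k : ℕ, ((14 + k : ℕ) : ℝ) ^ 2 < (147 / 100) ^ (14 + k) := by
    intro k
    induction k with
    | zero => norm_num
    | succ k ih =>
      have hk : (0 : ℝ) ≤ k := Nat.cast_nonneg k
      rw [← add_assoc, pow_succ (147 / 100 : ℝ)]
      push_cast at ih ⊢
      nlinarith
  obtain ⟨k, rfl⟩ := Nat.exists_eq_add_of_le hn
  have h2 : Real.exp ((14 + k : ℕ) : ℝ) ≤ (272 / 100) ^ (14 + k) := by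
    rw [← Real.exp_one_pow]
    gcongr
    linarith [Real.exp_one_lt_d9]
  calc ((14 + k : ℕ) : ℝ) ^ 2 * Real.exp ((14 + k : ℕ) : ℝ)
      < (147 / 100) ^ (14 + k) * (272 / 100) ^ (14 + k) :=
        mul_lt_mul (h1 k) h2 (Real.exp_pos _) (by positivity)
    _ = (147 / 100 * (272 / 100)) ^ (14 + k) := (mul_pow _ _ _).symm
    _ ≤ 4 ^ (14 + k) := by
        gcongr
        norm_num

theorem numeric (m : ℕ) :
    (m : ℝ) * ∑ t ∈ range m, ((m + 1 : ℕ) : ℝ) ^ (t + 1) / t.factorial < 4 ^ (m + 1) := by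
  rcases lt_or_ge (m + 1) 14 with h | h
  · have h' : m < 13 := by omega
    interval_cases m <;> norm_num [sum_range_succ, Nat.factorial]
  · refine lt_of_le_of_lt ?_ (numeric_big (m + 1) h)
    have h1 := Real.sum_le_exp_of_nonneg (x := ((m + 1 : ℕ) : ℝ)) (by positivity) m
    have e : ∑ t ∈ range m, ((m + 1 : ℕ) : ℝ) ^ (t + 1) / t.factorial
        = ((m + 1 : ℕ) : ℝ) * ∑ t ∈ range m, ((m + 1 : ℕ) : ℝ) ^ t / t.factorial := by
      rw [mul_sum]
      refine sum_congr rfl fun t _ => ?_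
      ring
    have h2 : (m : ℝ) ≤ ((m + 1 : ℕ) : ℝ) := by exact_mod_cast Nat.le_succ m
    rw [e, sq, mul_assoc]
    gcongr

theorem exists_diagonal {m d : ℕ} (hd : 2 * (m + 1) ≤ d + 1)
    (L : (Fin (d + 1) → Fin (m + 1)) → Fin (m + 1))
    (hL : ∀ x k, Bijective fun a => L (update x k a)) (s : Fin (m + 1) → Fin (m + 1))
    (j : Fin (m + 1)) :
    ∃ ω : Fin (d + 1) → Perm (Fin (m + 1)), ∀ i, i ≠ j → L (fun k => ω k i) = s i := by
  set a : ℕ → ℝ := fun t => ((m + 1 : ℕ) : ℝ) ^ (t + 1) / (t.factorial * 2 ^ (d + 1)) with ha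
  have ha0 : ∀ t, 0 ≤ a t := fun t => by positivity
  have hcard : (univ.erase j).card = m := by simp
  have hsum : ∑ t ∈ range m, √(a t) < 1 := by
    have h1 : (∑ t ∈ range m, √(a t)) ^ 2 ≤ m * ∑ t ∈ range m, a t := by
      have := sq_sum_le_card_mul_sum_sq (s := range m) (f := fun t => √(a t))
      simpa only [card_range, Real.sq_sqrt (ha0 _)] using this
    have h2 : ∑ t ∈ range m, a t
        = (∑ t ∈ range m, ((m + 1 : ℕ) : ℝ) ^ (t + 1) / t.factorial) / 2 ^ (d + 1) := by
      rw [sum_div]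
      refine sum_congr rfl fun t _ => ?_
      simp only [ha]
      rw [div_div]
    have h3 : (4 : ℝ) ^ (m + 1) ≤ 2 ^ (d + 1) := by
      rw [show (4 : ℝ) = 2 ^ 2 by norm_num, ← pow_mul]
      exact pow_le_pow_right₀ (by norm_num) hd
    have h4 : m * ∑ t ∈ range m, a t < 1 := by
      rw [h2, ← mul_div_assoc, div_lt_one (by positivity)]
      exact (numeric m).trans_le h3
    by_contra h
    push Not at h
    nlinarith
  have h := lower L s hL j (fun t => √(a t)) (fun t => Real.sqrt_nonneg _)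
    (fun t => by rw [Real.sq_sqrt (ha0 t), Fintype.card_fin]) (univ.erase j) (notMem_erase j _)
    (by rw [hcard]; exact hsum.le)
  rw [hcard] at h
  have hne : 𝔼 ω, good L s (univ.erase j) ω ≠ 0 := by
    intro h0
    rw [h0, zero_mul] at h
    nlinarith
  obtain ⟨ω, -, hω⟩ := exists_ne_zero_of_expect_ne_zero hne
  refine ⟨ω, fun i hi => ?_⟩
  unfold good at hω
  split_ifs at hω with h1
  · exact h1 i (mem_erase.2 ⟨hi, mem_univ _⟩)
  · exact absurd rfl hω

end Pool.Agent.Lib.MP_356f68_co.Near
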