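import Mathlib

set_option autoImplicit false
set_option linter.unusedSectionVars false

open Finset

namespace Pool.Agent.Lib.MP_356f68_co

variable {ι α S : Type} [Fintype ι] [DecidableEq ι] [Fintype α] [DecidableEq α] [Fintype S]
  [DecidableEq S]

section fixed
variable {G : Type} [Group G] (ρ : G →* Equiv.Perm ι) (φ : G →* Equiv.Perm (ι → α))

/-- Cells fixed by the group. -/
def Fx (x : ι → α) : Prop := ∀ g, φ g x = x

/-- The orbit of a coordinate. -/
def Orb (j k : ι) : Prop := ∃ g, ρ g j = k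

/-- The fixed cells form a Latin array with respect to the orbits. -/
def Claim (L : (ι → α) → S) : Prop :=
  (∃ x, Fx φ x) ∧ ∀ x, Fx φ x → ∀ j s, ∃ y, Fx φ y ∧ (∀ k, ¬ Orb ρ j k → y k = x k) ∧ L y = s

variable {ρ φ}

lemma orb_iff (j k : ι) (g : G) : Orb ρ j (ρ g k) ↔ Orb ρ j k := by
  constructor
  · rintro ⟨h, hh⟩
    exact ⟨g⁻¹ * h, by simp [hh]⟩
  · rintro ⟨h, hh⟩
    exact ⟨g * h, by simp [hh]⟩

lemma fx_ext (hc : ∀ g j x y, x j = y j → φ g x (ρ g j) = φ g y (ρ g j)) {x y : ι → α}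
    (hx : Fx φ x) (hy : Fx φ y) {j k : ι} (h : x j = y j) (hk : Orb ρ j k) : x k = y k := by
  obtain ⟨g, rfl⟩ := hk
  have := hc g j x y h
  rwa [hx g, hy g] at this

open Classical in
lemma fx_patch (hc : ∀ g j x y, x j = y j → φ g x (ρ g j) = φ g y (ρ g j)) {x y : ι → α}
    (hx : Fx φ x) (hy : Fx φ y) (j : ι) : Fx φ fun k => if Orb ρ j k then x k else y k := by
  intro g
  funext k
  obtain ⟨k, rfl⟩ := (ρ g).surjective k
  by_cases h : Orb ρ j k
  · rw [hc g k _ x (if_pos h), hx g, if_pos ((orb_iff j k g).mpr h)]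
  · rw [hc g k _ y (if_neg h), hy g, if_neg (mt (orb_iff j k g).mp h)]

lemma uniq (hcard : Fintype.card α = Fintype.card S)
    (hc : ∀ g j x y, x j = y j → φ g x (ρ g j) = φ g y (ρ g j)) {L : (ι → α) → S}
    (hC : Claim ρ φ L) {x y : ι → α} (hx : Fx φ x) (hy : Fx φ y) (j : ι)
    (h : ∀ k, ¬ Orb ρ j k → y k = x k) (hL : L y = L x) : y = x := by
  classical
  let T := {z : ι → α // Fx φ z ∧ ∀ k, ¬ Orb ρ j k → z k = x k}
  have h1 : Function.Injective fun z : T => z.1 j := by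
    intro z z' hz
    refine Subtype.ext (funext fun k => ?_)
    by_cases hk : Orb ρ j k
    · exact fx_ext hc z.2.1 z'.2.1 hz hk
    · rw [z.2.2 k hk, z'.2.2 k hk]
  have h2 : Function.Surjective fun z : T => L z.1 := by
    intro s
    obtain ⟨z, hz1, hz2, hz3⟩ := hC.2 x hx j s
    exact ⟨⟨z, hz1, hz2⟩, hz3⟩
  have h3 : Function.Bijective fun z : T => L z.1 :=
    (Fintype.bijective_iff_surjective_and_card _).mpr ⟨h2, le_antisymm
      (hcard ▸ Fintype.card_le_of_injective _ h1) (Fintype.card_le_of_surjective _ h2)⟩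
  exact congrArg Subtype.val (h3.1 (a₁ := ⟨y, hy, h⟩) (a₂ := ⟨x, hx, fun _ _ => rfl⟩) hL)

open Classical in
lemma card_fibre (hcard : Fintype.card α = Fintype.card S)
    (hc : ∀ g j x y, x j = y j → φ g x (ρ g j) = φ g y (ρ g j)) {L : (ι → α) → S}
    (hC : Claim ρ φ L) {x : ι → α} (hx : Fx φ x) (U : Finset ι) (j : ι)
    (hU : ∀ k, Orb ρ j k → k ∈ U) (s : S) :
    (univ.filter fun y => (Fx φ y ∧ ∀ k ∉ U, y k = x k) ∧ L y = s).card =
      (univ.filter fun y => Fx φ y ∧ ∀ k ∉ U.filter (fun k => ¬ Orb ρ j k), y k = x k).card := by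
  refine card_bij (fun y _ => fun k => if Orb ρ j k then x k else y k) ?_ ?_ ?_
  · intro y hy
    obtain ⟨⟨h1, h2⟩, _⟩ := (mem_filter.mp hy).2
    refine mem_filter.mpr ⟨mem_univ _, fx_patch hc hx h1 j, fun k hk => ?_⟩
    dsimp only
    split_ifs with h
    · rfl
    · exact h2 k fun hk' => hk (mem_filter.mpr ⟨hk', h⟩)
  · intro y hy y' hy' h
    obtain ⟨⟨h1, _⟩, h3⟩ := (mem_filter.mp hy).2
    obtain ⟨⟨h1', _⟩, h3'⟩ := (mem_filter.mp hy').2
    refine uniq hcard hc hC h1' h1 j (fun k hk => ?_) (h3.trans h3'.symm)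
    simpa [hk] using congrFun h k
  · intro z hz
    obtain ⟨h1, h2⟩ := (mem_filter.mp hz).2
    obtain ⟨y, hy1, hy2, hy3⟩ := hC.2 z h1 j s
    refine ⟨y, mem_filter.mpr ⟨mem_univ _, ⟨hy1, fun k hk => ?_⟩, hy3⟩, funext fun k => ?_⟩
    · rw [hy2 k fun h => hk (hU k h)]
      exact h2 k fun hk' => hk (mem_filter.mp hk').1
    · split_ifs with h
      · exact (h2 k fun hk' => (mem_filter.mp hk').2 h).symm
      · exact hy2 k h

open Classical in
lemma card_pow (hcard : Fintype.card α = Fintype.card S)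
    (hc : ∀ g j x y, x j = y j → φ g x (ρ g j) = φ g y (ρ g j)) {L : (ι → α) → S}
    (hC : Claim ρ φ L) {x : ι → α} (hx : Fx φ x) (U : Finset ι)
    (hU : ∀ j ∈ U, ∀ k, Orb ρ j k → k ∈ U) :
    ∃ m, (univ.filter fun y => Fx φ y ∧ ∀ k ∉ U, y k = x k).card = Fintype.card S ^ m := by
  induction U using Finset.strongInduction with
  | H U ih =>
    rcases U.eq_empty_or_nonempty with rfl | ⟨j, hj⟩
    · refine ⟨0, ?_⟩
      rw [pow_zero, card_eq_one]
      refine ⟨x, eq_singleton_iff_unique_mem.mpr ⟨mem_filter.mpr ⟨mem_univ _, hx, by simp⟩,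
        fun y hy => funext fun k => (mem_filter.mp hy).2.2 k (by simp)⟩⟩
    · obtain ⟨m, hm⟩ := ih (U.filter fun k => ¬ Orb ρ j k)
        (filter_ssubset.mpr ⟨j, hj, not_not.mpr ⟨1, by simp⟩⟩) (by
          intro k hk k' hk'
          obtain ⟨hk1, hk2⟩ := mem_filter.mp hk
          refine mem_filter.mpr ⟨hU k hk1 k' hk', ?_⟩
          obtain ⟨g, rfl⟩ := hk'
          rwa [orb_iff])
      refine ⟨m + 1, ?_⟩
      rw [card_eq_sum_card_fiberwise (f := L) (t := univ) (fun _ _ => mem_coe.mpr (mem_univ _))]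
      simp only [filter_filter]
      rw [sum_congr rfl fun s _ => (card_fibre hcard hc hC hx U j (hU j hj) s).trans hm]
      simp [pow_succ, mul_comm]

end fixed

lemma fixed_of_prime {β : Type} [DecidableEq β] (p : ℕ) (hp : p.Prime) (s : Finset β)
    (hs : ¬ p ∣ s.card) (σ : Equiv.Perm β) (h1 : ∀ y ∈ s, σ y ∈ s) (h2 : ∀ y ∈ s, (σ ^ p) y = y) :
    ∃ y ∈ s, σ y = y := by
  have : Fact p.Prime := ⟨hp⟩
  have h3 : ∀ y, σ y ∈ s ↔ y ∈ s := by
    refine fun y => ⟨fun hy => ?_, h1 y⟩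
    obtain ⟨z, hz, hzy⟩ := surj_on_of_inj_on_of_card_le (s := s) (t := s) (fun a _ => σ a) h1
      (fun _ _ _ _ h => σ.injective h) le_rfl _ hy
    rwa [σ.injective hzy]
  let τ : Equiv.Perm {y // y ∈ s} := σ.subtypePerm h3
  have h4 : τ ^ p ^ 1 = 1 := by
    ext y
    rw [pow_one, Equiv.Perm.subtypePerm_pow]
    exact h2 y.1 y.2
  obtain ⟨y, hy⟩ := Equiv.Perm.exists_fixed_point_of_prime (by simpa using hs) h4
  exact ⟨y.1, y.2, congrArg Subtype.val hy⟩

theorem claim [Nonempty α] (hcard : Fintype.card α = Fintype.card S) (L : (ι → α) → S)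
    (hL : ∀ x j, Function.Bijective fun a => L (Function.update x j a)) (m : ℕ) :
    ∀ (G : Type) [Group G] [Finite G] [Group.IsSolvable G], Nat.card G = m →
      (Nat.card G).Coprime (Fintype.card S) →
      ∀ (ρ : G →* Equiv.Perm ι) (φ : G →* Equiv.Perm (ι → α)),
        (∀ g j x y, x j = y j → φ g x (ρ g j) = φ g y (ρ g j)) → (∀ g x, L (φ g x) = L x) →
        Claim ρ φ L := by
  classical
  induction m using Nat.strong_induction_on with
  | h m ih =>
  intro G _ _ _ hm hco ρ φ hc hinv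
  rcases subsingleton_or_nontrivial G with hG | hG
  · have h1 : ∀ x, Fx φ x := fun x g => by rw [Subsingleton.elim g 1, map_one]; rfl
    refine ⟨⟨fun _ => Classical.arbitrary α, h1 _⟩, fun x _ j s => ?_⟩
    obtain ⟨a, ha⟩ := (hL x j).2 s
    refine ⟨_, h1 _, fun k hk => Function.update_of_ne ?_ _ _, ha⟩
    rintro rfl
    exact hk ⟨1, by simp⟩
  obtain ⟨M, hM, hle⟩ := (eq_top_or_exists_le_coatom (commutator G)).resolve_left
    (Group.IsSolvable.commutator_lt_top_of_nontrivial G).ne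
  have hN : M.Normal := Subgroup.Normal.of_commutator_le G hle
  obtain ⟨g₀, hg₀⟩ : ∃ g, g ∉ M := by
    by_contra! h
    exact hM.1 (eq_top_iff.mpr fun g _ => h g)
  obtain ⟨p, hp, g₁, hg₁, hg₂, hpG⟩ : ∃ p : ℕ, p.Prime ∧ ∃ g₁, g₁ ∉ M ∧ g₁ ^ p ∈ M ∧
      p ∣ Nat.card G := by
    have h1 : orderOf (g₀ : G ⧸ M) ≠ 1 := by
      rw [Ne, orderOf_eq_one_iff, QuotientGroup.eq_one_iff]
      exact hg₀
    obtain ⟨p, hp, k, hk⟩ := Nat.exists_prime_and_dvd h1
    have h2 : 0 < orderOf (g₀ : G ⧸ M) := orderOf_pos _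
    refine ⟨p, hp, g₀ ^ k, ?_, ?_, ?_⟩
    · rw [← QuotientGroup.eq_one_iff, QuotientGroup.mk_pow, ← orderOf_dvd_iff_pow_eq_one, hk]
      intro h
      have hk0 : 0 < k := Nat.pos_of_ne_zero fun h0 => by simp [hk, h0] at h2
      have := Nat.le_of_dvd hk0 h
      nlinarith [hp.two_le]
    · rw [← QuotientGroup.eq_one_iff, ← pow_mul, QuotientGroup.mk_pow, mul_comm, ← hk,
        pow_orderOf_eq_one]
    · exact (Dvd.intro _ hk.symm).trans ((orderOf_dvd_natCard _).trans M.card_quotient_dvd_card)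
  have hpn : ∀ k, ¬ p ∣ Fintype.card S ^ k := fun k h =>
    hp.one_lt.ne' (Nat.eq_one_of_dvd_coprimes hco hpG (hp.dvd_of_dvd_pow h))
  have hlt : Nat.card M < m := by
    rw [← hm]
    exact Finite.card_subtype_lt hg₀
  have hc' : ∀ (g : M) j x y, x j = y j → (φ.comp M.subtype) g x ((ρ.comp M.subtype) g j) =
      (φ.comp M.subtype) g y ((ρ.comp M.subtype) g j) := fun g => hc g
  have hC := ih _ hlt M rfl (Nat.Coprime.coprime_dvd_left M.card_subgroup_dvd_card hco)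
    (ρ.comp M.subtype) (φ.comp M.subtype) hc' fun g => hinv g
  have hup : ∀ y, Fx (φ.comp M.subtype) y → φ g₁ y = y → Fx φ y := by
    intro y h1 h2
    let K : Subgroup G := (MulAction.stabilizer (Equiv.Perm (ι → α)) y).comap φ
    have h3 : M < K := lt_of_le_of_ne (fun g hg => h1 ⟨g, hg⟩) fun h => hg₁ (h ▸ h2)
    intro g
    have : g ∈ K := by rw [hM.2 K h3]; trivial
    exact this
  have hst : ∀ y, Fx (φ.comp M.subtype) y → Fx (φ.comp M.subtype) (φ g₁ y) := by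
    intro y hy g
    have h1 := hy ⟨g₁⁻¹ * g * g₁, by simpa using hN.conj_mem g g.2 g₁⁻¹⟩
    change φ (g₁⁻¹ * g * g₁) y = y at h1
    change φ g (φ g₁ y) = φ g₁ y
    conv_rhs => rw [← h1]
    simp
  have hpw : ∀ y, Fx (φ.comp M.subtype) y → (φ g₁ ^ p) y = y := fun y hy => by
    rw [← map_pow]; exact hy ⟨_, hg₂⟩
  constructor
  · obtain ⟨x, hx⟩ := hC.1
    obtain ⟨k, hk⟩ := card_pow hcard hc' hC hx univ (fun _ _ _ _ => mem_univ _)
    obtain ⟨y, hy1, hy2⟩ := fixed_of_prime p hp _ (hk ▸ hpn k) (φ g₁)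
      (fun y hy => mem_filter.mpr ⟨mem_univ _, hst y (mem_filter.mp hy).2.1, by simp⟩)
      (fun y hy => hpw y (mem_filter.mp hy).2.1)
    exact ⟨y, hup y (mem_filter.mp hy1).2.1 hy2⟩
  · intro x hx j s
    have hx' : Fx (φ.comp M.subtype) x := fun g => hx g
    let U : Finset ι := univ.filter fun k => Orb ρ j k
    have hU : ∀ k ∈ U, ∀ k', Orb (ρ.comp M.subtype) k k' → k' ∈ U := by
      rintro k hk _ ⟨g, rfl⟩
      exact mem_filter.mpr ⟨mem_univ _, (orb_iff (ρ := ρ) j k (g : G)).mpr (mem_filter.mp hk).2⟩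
    have h1 := card_fibre hcard hc' hC hx' U j
      (hU j (mem_filter.mpr ⟨mem_univ _, 1, by simp⟩)) s
    obtain ⟨k, hk⟩ := card_pow hcard hc' hC hx'
      (U.filter fun k => ¬ Orb (ρ.comp M.subtype) j k) (by
        intro k hk k' hk'
        obtain ⟨hk1, hk2⟩ := mem_filter.mp hk
        refine mem_filter.mpr ⟨hU k hk1 k' hk', ?_⟩
        obtain ⟨g, rfl⟩ := hk'
        rwa [orb_iff])
    obtain ⟨y, hy1, hy2⟩ := fixed_of_prime p hp _ ((h1.trans hk) ▸ hpn k) (φ g₁)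
      (fun y hy => by
        obtain ⟨⟨a1, a2⟩, a3⟩ := (mem_filter.mp hy).2
        refine mem_filter.mpr ⟨mem_univ _, ⟨hst y a1, fun k hk => ?_⟩, (hinv _ _).trans a3⟩
        obtain ⟨k, rfl⟩ := (ρ g₁).surjective k
        rw [hc g₁ k y x (a2 k fun h => hk (mem_filter.mpr ⟨mem_univ _,
          (orb_iff j k g₁).mpr (mem_filter.mp h).2⟩)), hx g₁])
      (fun y hy => hpw y (mem_filter.mp hy).2.1.1)
    obtain ⟨⟨a1, a2⟩, a3⟩ := (mem_filter.mp hy1).2
    exact ⟨y, hup y a1 hy2, fun k hk => a2 k fun h => hk (mem_filter.mp h).2, a3⟩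

end Pool.Agent.Lib.MP_356f68_co
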